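import Pool.Agent.X107.UZ.UZ1
import Pool.Agent.Helper240.ZU.Defs

/-! # Dirichlet polynomials as functions on tori -/

set_option autoImplicit false

open Complex Filter Topology Set MeasureTheory

namespace Pool.Agent.X107.UZ

open TH803TW ZU

lemma log_indep {N : ℕ} (p : Fin N → ℕ) (hp : ∀ i, (p i).Prime) (hinj : Function.Injective p)
    (z : Fin N → ℤ) (hz : ∑ i, (z i : ℝ) * Real.log (p i) = 0) : ∀ i, z i = 0 := by
  classical
  have h1 : ∑ i, ((z i).toNat : ℝ) * Real.log (p i) = ∑ i, ((-z i).toNat : ℝ) * Real.log (p i) := by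
    rw [← sub_eq_zero, ← Finset.sum_sub_distrib, ← hz]
    refine Finset.sum_congr rfl ?_
    intro i _
    have : (z i : ℝ) = ((z i).toNat : ℝ) - ((-z i).toNat : ℝ) := by
      have := Int.toNat_sub_toNat_neg (z i)
      have h2 : (((z i).toNat : ℤ) : ℝ) - (((-z i).toNat : ℤ) : ℝ) = (z i : ℝ) := by
        exact_mod_cast this
      push_cast at h2
      linarith
    rw [this]
    ring
  have hpos : ∀ i, (0 : ℝ) < p i := fun i => by exact_mod_cast (hp i).pos
  have h2 : (∏ i, (p i : ℝ) ^ (z i).toNat) = ∏ i, (p i : ℝ) ^ (-z i).toNat := by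
    apply Real.log_injOn_pos
    · exact Finset.prod_pos (fun i _ => pow_pos (hpos i) _)
    · exact Finset.prod_pos (fun i _ => pow_pos (hpos i) _)
    · rw [Real.log_prod (fun i _ => (pow_pos (hpos i) _).ne'),
        Real.log_prod (fun i _ => (pow_pos (hpos i) _).ne')]
      simp only [Real.log_pow]
      exact h1
  have h3 : (∏ i, (p i) ^ (z i).toNat) = ∏ i, (p i) ^ (-z i).toNat := by
    exact_mod_cast h2
  have key : ∀ (e : Fin N → ℕ) (k : Fin N), (∏ i, (p i) ^ (e i)).factorization (p k) = e k := by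
    intro e k
    rw [Nat.factorization_prod (fun i _ => (pow_pos (hp i).pos _).ne')]
    rw [Finsupp.finsetSum_apply]
    rw [Finset.sum_eq_single k]
    · rw [(hp k).factorization_pow, Finsupp.single_eq_same]
    · intro i _ hik
      rw [(hp i).factorization_pow, Finsupp.single_apply, if_neg]
      intro h
      exact hik (hinj h)
    · intro h; exact absurd (Finset.mem_univ k) h
  intro k
  have h4 : (∏ i, (p i) ^ (z i).toNat).factorization (p k) = (z k).toNat :=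
    key (fun i => (z i).toNat) k
  have h5 : (∏ i, (p i) ^ (-z i).toNat).factorization (p k) = (-z k).toNat :=
    key (fun i => (-z i).toNat) k
  rw [h3, h5] at h4
  omega

/-- the number of primes up to `N` -/
noncomputable def kN (N : ℕ) : ℕ := (pr N).card

/-- the primes up to `N` -/
noncomputable def pN (N : ℕ) (j : Fin (kN N)) : ℕ := ((pr N).equivFin.symm j : ℕ)

lemma pN_mem (N : ℕ) (j : Fin (kN N)) : pN N j ∈ pr N := ((pr N).equivFin.symm j).2

lemma pN_prime (N : ℕ) (j : Fin (kN N)) : (pN N j).Prime := (Finset.mem_filter.1 (pN_mem N j)).2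

lemma pN_inj (N : ℕ) : Function.Injective (pN N) := by
  intro i j h
  exact (pr N).equivFin.symm.injective (Subtype.ext h)

lemma sum_pN (N : ℕ) (g : ℕ → ℝ) : ∑ j, g (pN N j) = ∑ p ∈ pr N, g p := by
  rw [← Finset.sum_coe_sort (pr N)]
  exact Equiv.sum_comp (pr N).equivFin.symm (fun p : pr N => g p)

/-- the frequencies -/
noncomputable def aN (N : ℕ) (j : Fin (kN N)) : ℝ := Real.log (pN N j) / (2 * Real.pi)

lemma aN_indep (N : ℕ) (n : Fin (kN N) → ℤ) (h : ∑ j, (n j : ℝ) * aN N j = 0) : n = 0 := by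
  have h1 : ∑ j, (n j : ℝ) * Real.log (pN N j) = 0 := by
    have h2 : ∑ j, (n j : ℝ) * aN N j = (∑ j, (n j : ℝ) * Real.log (pN N j)) / (2 * Real.pi) := by
      rw [Finset.sum_div]
      refine Finset.sum_congr rfl fun j _ => ?_
      unfold aN
      ring
    rw [h2, div_eq_zero_iff] at h
    rcases h with h | h
    · exact h
    · exact absurd h (by positivity)
  funext j
  exact log_indep (pN N) (pN_prime N) (pN_inj N) n h1 j

/-- the exponents -/
noncomputable def ev (N n : ℕ) (j : Fin (kN N)) : ℤ := -((n.factorization (pN N j) : ℕ) : ℤ)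

lemma log_fact {N n : ℕ} (h1 : 1 ≤ n) (h2 : n ≤ N) :
    ∑ j, (n.factorization (pN N j) : ℝ) * Real.log (pN N j) = Real.log n := by
  rw [sum_pN N (fun p => (n.factorization p : ℝ) * Real.log p)]
  have e1 : n = ∏ p ∈ pr N, p ^ n.factorization p := by
    conv_lhs => rw [← Nat.factorization_prod_pow_eq_self (n := n) (by omega)]
    refine Finsupp.prod_of_support_subset _ (fun p hp => ?_) _ (fun p _ => pow_zero p)
    rw [Nat.support_factorization, Nat.mem_primeFactors] at hp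
    exact Finset.mem_filter.2 ⟨Finset.mem_Icc.2 ⟨hp.1.one_lt.le,
      (Nat.le_of_dvd (by omega) hp.2.1).trans h2⟩, hp.1⟩
  have hpos : ∀ p ∈ pr N, (0 : ℝ) < p := fun p hp => by
    exact_mod_cast (Finset.mem_filter.1 hp).2.pos
  conv_rhs => rw [e1]
  push_cast
  rw [Real.log_prod (fun p hp => (pow_pos (hpos p hp) _).ne')]
  exact Finset.sum_congr rfl fun p _ => (Real.log_pow _ _).symm

lemma freq_ev {N n : ℕ} (h1 : 1 ≤ n) (h2 : n ≤ N) : freq (aN N) (ev N n) = -Real.log n := by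
  unfold freq
  rw [← log_fact h1 h2, Finset.mul_sum, ← Finset.sum_neg_distrib]
  refine Finset.sum_congr rfl fun j _ => ?_
  unfold ev aN
  push_cast
  have : Real.pi ≠ 0 := Real.pi_ne_zero
  field_simp

/-- the Dirichlet polynomial on the torus -/
noncomputable def PN (N : ℕ) (x : UnitAddTorus (Fin (kN N))) (z : ℂ) : ℂ :=
  ∑ n ∈ Finset.Icc 1 N, (n : ℂ) ^ (-z) * UnitAddTorus.mFourier (ev N n) x

lemma PN_torusPt (N : ℕ) (t : ℝ) (z : ℂ) : PN N (torusPt (aN N) t) z = DN N (z + t * I) := by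
  unfold PN DN
  refine Finset.sum_congr rfl fun n hn => ?_
  rw [Finset.mem_Icc] at hn
  have hn0 : (n : ℂ) ≠ 0 := by exact_mod_cast (by omega : n ≠ 0)
  rw [mFourier_torusPt, freq_ev hn.1 hn.2, cpow_def_of_ne_zero hn0, cpow_def_of_ne_zero hn0,
    ← Complex.exp_add, ← natCast_log]
  congr 1
  push_cast
  ring

lemma PN_near (N : ℕ) (x0 : UnitAddTorus (Fin (kN N))) {K : Set ℂ} (hK : ∀ z ∈ K, 0 ≤ z.re)
    {ε : ℝ} (hε : 0 < ε) : ∀ᶠ x in 𝓝 x0, ∀ z ∈ K, ‖PN N x z - PN N x0 z‖ < ε := by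
  set D : UnitAddTorus (Fin (kN N)) → ℝ := fun x => ∑ n ∈ Finset.Icc 1 N,
    ‖UnitAddTorus.mFourier (ev N n) x - UnitAddTorus.mFourier (ev N n) x0‖ with hD
  have hc : Continuous D := by
    rw [hD]
    exact continuous_finsetSum _ fun n _ =>
      (((UnitAddTorus.mFourier (ev N n)).continuous.sub continuous_const).norm)
  have h0 : D x0 = 0 := by rw [hD]; simp
  have h1 : ∀ᶠ x in 𝓝 x0, D x < ε := by
    have := hc.tendsto x0
    rw [h0] at this
    exact this.eventually (gt_mem_nhds hε)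
  filter_upwards [h1] with x hx z hz
  refine lt_of_le_of_lt ?_ hx
  unfold PN
  rw [← Finset.sum_sub_distrib]
  refine (norm_sum_le _ _).trans (Finset.sum_le_sum fun n hn => ?_)
  rw [Finset.mem_Icc] at hn
  rw [← mul_sub, norm_mul]
  have hn1 : ‖(n : ℂ) ^ (-z)‖ ≤ 1 := by
    rw [Complex.norm_natCast_cpow_of_pos (by omega)]
    have h2 : (1 : ℝ) ≤ n := by exact_mod_cast hn.1
    exact Real.rpow_le_one_of_one_le_of_nonpos h2 (by rw [neg_re]; linarith [hK z hz])
  calc _ ≤ 1 * ‖UnitAddTorus.mFourier (ev N n) x - UnitAddTorus.mFourier (ev N n) x0‖ :=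
        mul_le_mul_of_nonneg_right hn1 (norm_nonneg _)
    _ = _ := one_mul _

/-- `g` has distance less than `δ` from a member of `A`, in the supremum norm on `K` -/
def Ev (K : Set ℂ) (A : Set (ℂ → ℂ)) (δ : ℝ) (g : ℂ → ℂ) : Prop :=
  ∃ f ∈ A, ∃ δ' < δ, ∀ z ∈ K, ‖g z - f z‖ ≤ δ'

lemma Ev.mono {K : Set ℂ} {A : Set (ℂ → ℂ)} {δ ε : ℝ} {g h : ℂ → ℂ} (hg : Ev K A δ g)
    (hh : ∀ z ∈ K, ‖h z - g z‖ ≤ ε) : Ev K A (δ + ε) h := by
  obtain ⟨f, hf, δ', hδ', h1⟩ := hg
  refine ⟨f, hf, δ' + ε, by linarith, fun z hz => ?_⟩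
  calc ‖h z - f z‖ = ‖(h z - g z) + (g z - f z)‖ := by congr 1; ring
    _ ≤ ‖h z - g z‖ + ‖g z - f z‖ := norm_add_le _ _
    _ ≤ δ' + ε := by linarith [hh z hz, h1 z hz]

lemma Ev.le {K : Set ℂ} {A : Set (ℂ → ℂ)} {δ ε : ℝ} {g : ℂ → ℂ} (hg : Ev K A δ g)
    (h : δ ≤ ε) : Ev K A ε g := by
  obtain ⟨f, hf, δ', hδ', h1⟩ := hg
  exact ⟨f, hf, δ', hδ'.trans_le h, h1⟩

/-- the points of the torus -/
def WN (N : ℕ) (K : Set ℂ) (A : Set (ℂ → ℂ)) (δ : ℝ) : Set (UnitAddTorus (Fin (kN N))) :=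
  {x | Ev K A δ (PN N x)}

lemma WN_open (N : ℕ) {K : Set ℂ} (hK : ∀ z ∈ K, 0 ≤ z.re) (A : Set (ℂ → ℂ)) (δ : ℝ) :
    IsOpen (WN N K A δ) := by
  rw [isOpen_iff_mem_nhds]
  rintro x ⟨f, hf, δ', hδ', h1⟩
  have h2 := PN_near N x hK (ε := (δ - δ') / 2) (by linarith)
  filter_upwards [h2] with y hy
  have h3 : Ev K A ((δ' + (δ - δ') / 4) + (δ - δ') / 2) (PN N y) :=
    Ev.mono ⟨f, hf, δ', by linarith, h1⟩ fun z hz => (hy z hz).le
  exact h3.le (by linarith)

lemma WN_closure (N : ℕ) {K : Set ℂ} (hK : ∀ z ∈ K, 0 ≤ z.re) (A : Set (ℂ → ℂ)) {δ η : ℝ}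
    (hη : 0 < η) : closure (WN N K A δ) ⊆ WN N K A (δ + η) := by
  intro x hx
  have h2 := PN_near N x hK hη
  rw [mem_closure_iff_nhds] at hx
  obtain ⟨y, hy1, hy2⟩ := hx _ h2
  exact Ev.mono (g := PN N y) hy2 fun z hz => by
    rw [norm_sub_rev]; exact (hy1 z hz).le

end Pool.Agent.X107.UZ
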