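import Pool.Agent.TH803.TW.Torus
import Pool.Agent.Helper240.ZU.C0

/-! # Averages over `[0, X]` of almost periodic functions and of points of tori -/

set_option autoImplicit false

open Complex Filter Topology Set MeasureTheory

namespace Pool.Agent.X107.UZ

open TH803TW

lemma exp_int {τ : ℝ} (hτ : τ ≠ 0) (X : ℝ) :
    ‖∫ t in (0 : ℝ)..X, cexp (I * τ * t)‖ ≤ 2 / |τ| := by
  have h := ZU.J_c0.hz_J (-τ) X (neg_ne_zero.2 hτ)
  rw [abs_neg] at h
  refine le_trans (le_of_eq ?_) h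
  congr 1
  refine intervalIntegral.integral_congr fun t _ => ?_
  congr 1
  push_cast
  ring

lemma tp_int (S : Finset ℝ) (c : ℝ → ℂ) (h0 : (0 : ℝ) ∈ S) : ∃ K : ℝ, 0 ≤ K ∧ ∀ X : ℝ,
    |(∫ t in (0 : ℝ)..X, tp S c t) - X * (c 0).re| ≤ K := by
  classical
  refine ⟨∑ τ ∈ S.erase 0, ‖c τ‖ * (2 / |τ|), Finset.sum_nonneg fun τ _ => by positivity,
    fun X => ?_⟩
  have hint : ∀ τ : ℝ, IntervalIntegrable (fun t : ℝ => c τ * cexp (I * τ * t)) volume 0 X :=
    fun τ => Continuous.intervalIntegrable (by fun_prop) _ _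
  have e1 : (∫ t in (0 : ℝ)..X, tp S c t) =
      (∫ t in (0 : ℝ)..X, ∑ τ ∈ S, c τ * cexp (I * τ * t)).re := by
    unfold tp
    have hi : IntervalIntegrable (fun t : ℝ => ∑ τ ∈ S, c τ * cexp (I * τ * t)) volume 0 X :=
      Continuous.intervalIntegrable (by fun_prop) _ _
    exact intervalIntegral.intervalIntegral_re hi |>.symm ▸ rfl
  have e2 : (∫ t in (0 : ℝ)..X, ∑ τ ∈ S, c τ * cexp (I * τ * t)) =
      X * c 0 + ∑ τ ∈ S.erase 0, c τ * ∫ t in (0 : ℝ)..X, cexp (I * τ * t) := by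
    rw [intervalIntegral.integral_finsetSum fun τ _ => hint τ, ← Finset.add_sum_erase S _ h0]
    congr 1
    · simp [mul_comm]
    · exact Finset.sum_congr rfl fun τ _ => intervalIntegral.integral_const_mul _ _
  rw [e1, e2]
  have e3 : ((X : ℂ) * c 0 + ∑ τ ∈ S.erase 0, c τ * ∫ t in (0 : ℝ)..X, cexp (I * τ * t)).re -
      X * (c 0).re = (∑ τ ∈ S.erase 0, c τ * ∫ t in (0 : ℝ)..X, cexp (I * τ * t)).re := by
    rw [Complex.add_re, Complex.re_ofReal_mul]
    ring
  rw [e3]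
  refine (Complex.abs_re_le_norm _).trans ((norm_sum_le _ _).trans
    (Finset.sum_le_sum fun τ hτ => ?_))
  rw [norm_mul]
  exact mul_le_mul_of_nonneg_left (exp_int (Finset.ne_of_mem_erase hτ) X) (norm_nonneg _)

/-- **the mean value** -/
lemma avg {φ : ℝ → ℝ} {M : ℝ} (h : APm φ M) (hφ : Continuous φ) {ε : ℝ} (hε : 0 < ε) :
    ∃ X0 : ℝ, 0 < X0 ∧ ∀ X : ℝ, X0 ≤ X → |(∫ t in (0 : ℝ)..X, φ t) - X * M| ≤ ε * X := by
  obtain ⟨S, c, h0, h1, h2⟩ := h (ε / 3) (by positivity)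
  obtain ⟨K, hK, hKX⟩ := tp_int S c h0
  refine ⟨3 * K / ε + 1, by positivity, fun X hX => ?_⟩
  have hX0 : 0 < X := lt_of_lt_of_le (by positivity) hX
  have hK3 : K ≤ ε / 3 * X := by
    have : 3 * K / ε ≤ X := by linarith
    rw [div_le_iff₀ hε] at this
    linarith
  have hi1 : IntervalIntegrable φ volume 0 X := hφ.intervalIntegrable _ _
  have hi2 : IntervalIntegrable (tp S c) volume 0 X := (tp_cont S c).intervalIntegrable _ _
  have a1 : |(∫ t in (0 : ℝ)..X, φ t) - ∫ t in (0 : ℝ)..X, tp S c t| ≤ ε / 3 * X := by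
    rw [← intervalIntegral.integral_sub hi1 hi2]
    have := intervalIntegral.norm_integral_le_of_norm_le_const (a := 0) (b := X)
      (f := fun t => φ t - tp S c t) (C := ε / 3) (fun t _ => by
        rw [Real.norm_eq_abs]; exact h1 t)
    rw [Real.norm_eq_abs, sub_zero, abs_of_pos hX0] at this
    exact this
  have a2 := hKX X
  have a3 : |X * (c 0).re - X * M| ≤ ε / 3 * X := by
    rw [← mul_sub, abs_mul, abs_of_pos hX0, mul_comm]
    exact mul_le_mul_of_nonneg_right h2 hX0.le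
  have e : (∫ t in (0 : ℝ)..X, φ t) - X * M = ((∫ t in (0 : ℝ)..X, φ t) -
      ∫ t in (0 : ℝ)..X, tp S c t) + ((∫ t in (0 : ℝ)..X, tp S c t) - X * (c 0).re) +
      (X * (c 0).re - X * M) := by ring
  rw [e]
  refine (abs_add_three _ _ _).trans ?_
  linarith

lemma continuous_torusPt {k : ℕ} (α : Fin k → ℝ) : Continuous (torusPt α) := by
  unfold torusPt
  refine continuous_pi fun j => ?_
  exact (AddCircle.continuous_mk' 1).comp (by fun_prop)

/-- **equidistribution, open sets** -/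
lemma weyl_open {k : ℕ} {α : Fin k → ℝ}
    (hα : ∀ n : Fin k → ℤ, ∑ j, (n j : ℝ) * α j = 0 → n = 0) {U : Set (UnitAddTorus (Fin k))}
    (hU : IsOpen U) {ε : ℝ} (hε : 0 < ε) :
    ∃ X0 : ℝ, 0 < X0 ∧ ∀ X : ℝ, X0 ≤ X →
      ((haarT k U).toReal - ε) * X ≤ (volume ({t | torusPt α t ∈ U} ∩ Icc 0 X)).toReal := by
  obtain ⟨f, f0, f1, f2, f3⟩ := torus_lower hU (ε := ε / 2) (by positivity)
  have hcont : Continuous (fun t : ℝ => f (torusPt α t)) :=
    f.continuous.comp (continuous_torusPt α)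
  obtain ⟨X0, hX0, h⟩ := avg (APm_torus hα f) hcont (ε := ε / 2) (by positivity)
  refine ⟨X0, hX0, fun X hX => ?_⟩
  have hX00 : 0 < X := hX0.trans_le hX
  have h1 := (abs_le.1 (h X hX)).1
  set S : Set ℝ := {t | torusPt α t ∈ U} with hS
  have hSo : IsOpen S := hU.preimage (continuous_torusPt α)
  have h2 : ∫ t in (0 : ℝ)..X, f (torusPt α t) ≤ (volume (S ∩ Icc 0 X)).toReal := by
    rw [intervalIntegral.integral_of_le hX00.le, ← integral_Icc_eq_integral_Ioc]
    have h3 : ∫ t in Icc 0 X, f (torusPt α t) ≤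
        ∫ t in Icc 0 X, S.indicator (fun _ => (1 : ℝ)) t := by
      refine setIntegral_mono_on ?_ ?_ measurableSet_Icc fun t _ => ?_
      · exact hcont.continuousOn.integrableOn_compact isCompact_Icc
      · exact (integrableOn_const (by simp) (by simp)).indicator hSo.measurableSet
      · by_cases ht : t ∈ S
        · rw [Set.indicator_of_mem ht]; exact f1 _
        · rw [Set.indicator_of_notMem ht, f2 _ ht]
    refine h3.trans (le_of_eq ?_)
    rw [integral_indicator hSo.measurableSet, Measure.restrict_restrict hSo.measurableSet]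
    simp [Measure.real]
  have h4 : (haarT k U).toReal * X ≤ (∫ x, f x ∂(haarT k)) * X + ε / 2 * X := by
    nlinarith
  linarith

/-- **equidistribution, closed sets** -/
lemma weyl_closed {k : ℕ} {α : Fin k → ℝ}
    (hα : ∀ n : Fin k → ℤ, ∑ j, (n j : ℝ) * α j = 0 → n = 0) {C : Set (UnitAddTorus (Fin k))}
    (hC : IsClosed C) {ε : ℝ} (hε : 0 < ε) :
    ∃ X0 : ℝ, 0 < X0 ∧ ∀ X : ℝ, X0 ≤ X →
      (volume ({t | torusPt α t ∈ C} ∩ Icc 0 X)).toReal ≤ ((haarT k C).toReal + ε) * X := by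
  obtain ⟨X0, hX0, h⟩ := weyl_open hα hC.isOpen_compl hε
  refine ⟨X0, hX0, fun X hX => ?_⟩
  have hX00 : 0 < X := hX0.trans_le hX
  have h1 := h X hX
  have hCm : MeasurableSet C := hC.measurableSet
  have e1 : (haarT k Cᶜ).toReal = 1 - (haarT k C).toReal := by
    rw [prob_compl_eq_one_sub hCm, ENNReal.toReal_sub_of_le prob_le_one ENNReal.one_ne_top]
    rfl
  have hSm : MeasurableSet {t : ℝ | torusPt α t ∈ C} :=
    (hC.preimage (continuous_torusPt α)).measurableSet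
  have e2 : (volume ({t : ℝ | torusPt α t ∈ C} ∩ Icc 0 X)).toReal +
      (volume ({t : ℝ | torusPt α t ∈ Cᶜ} ∩ Icc 0 X)).toReal = X := by
    have e3 : {t : ℝ | torusPt α t ∈ Cᶜ} = {t : ℝ | torusPt α t ∈ C}ᶜ := rfl
    have hf : volume (Icc (0 : ℝ) X) ≠ ⊤ := by simp
    rw [e3, ← ENNReal.toReal_add (measure_ne_top_of_subset inter_subset_right hf)
      (measure_ne_top_of_subset inter_subset_right hf)]
    rw [Set.inter_comm _ (Icc 0 X), Set.inter_comm _ (Icc 0 X), ← Set.sdiff_eq]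
    rw [measure_inter_add_sdiff _ hSm, Real.volume_Icc, sub_zero, ENNReal.toReal_ofReal hX00.le]
  rw [e1] at h1
  nlinarith

end Pool.Agent.X107.UZ
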